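import Mathlib
import Pool.Agent.MP_6b3410_lc.D4.Main2
import Pool.Agent.MP_6b3410_lc.D4.Row
import Pool.Agent.MP_6b3410_lc.D4.Hash
import Pool.Agent.MP_6b3410_lc.D4.Sieve
import Pool.Agent.MP_6b3410_lc.D4.Det
import Pool.Agent.MP_6b3410_lc.D4.Cyc
import Pool.Agent.MP_6b3410_lc.D4.Cover
import Pool.Agent.MP_6b3410_lc.D4.Count2
import Pool.Agent.MP_6b3410_lc.D4.Sz2
import Pool.Agent.MP_6b3410_lc.D4.List2
import Pool.Agent.MP_6b3410_lc.D4.Seed2
import Pool.Agent.MP_6b3410_lc.D4.Part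
import Pool.Agent.MP_6b3410_lc.U5.Gauss
import Pool.Agent.MP_6b3410_lc.U5.Bal
import Pool.Agent.MP_6b3410_lc.U5.Search

namespace Pool.Agent.Results.MP_6b3410_lc.DirectedBelowTwo

open Pool.Agent.MP_6b3410_lc

/-- For all large `n`, Hamiltonicity of directed graphs on `n` vertices is decided by a network
of fan-in two NAND gates with at most `1.915 ^ n` gates, input gates included. -/
theorem result :
    ∃ n₀ : ℕ, ∀ n : ℕ, n₀ ≤ n → ∃ s : ℕ,
      ((n * (n - 1) + s : ℕ) : ℝ) ≤ (1915 / 1000) ^ n ∧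
      ∃ a b : Fin s → ({p : Fin n × Fin n // p.1 ≠ p.2} ⊕ Fin s), ∃ o : Fin s,
        (∀ g j : Fin s, (a g = Sum.inr j → j < g) ∧ (b g = Sum.inr j → j < g)) ∧
        ∀ x : {p : Fin n × Fin n // p.1 ≠ p.2} → Bool, ∀ val : Fin s → Bool,
          (∀ g : Fin s, val g = !(Sum.elim x val (a g) && Sum.elim x val (b g))) →
          (val o = true ↔ ∃ f : Equiv.Perm (Fin n), ∀ i,
            ∃ h : f i ≠ f (finRotate n i), x ⟨(f i, f (finRotate n i)), h⟩ = true) :=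
  D4.mainD (D4.hash D4.row) D4.cover
    (D4.part D4.count2 D4.sz2
      (D4.seed2 (D4.list2 U5.gauss (U5.search U5.bal)) D4.det D4.sieve)) D4.cyc

end Pool.Agent.Results.MP_6b3410_lc.DirectedBelowTwo
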