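import Mathlib
import Pool.Agent.MP_6b3410_lc.H91.Main
import Pool.Agent.MP_6b3410_lc.H91.Hyper
import Pool.Agent.MP_6b3410_lc.H91.Pat
import Pool.Agent.MP_6b3410_lc.H91.Par
import Pool.Agent.MP_6b3410_lc.X91.Col
import Pool.Agent.MP_6b3410_lc.X91.Route
import Pool.Agent.MP_6b3410_lc.X91.Line
import Pool.Agent.MP_6b3410_lc.X91.Chain91
import Pool.Agent.MP_6b3410_lc.X91.Lay
import Pool.Agent.MP_6b3410_lc.X91.Rails
import Pool.Agent.MP_6b3410_lc.X91.Cnf
import Pool.Agent.MP_6b3410_lc.X91.Csp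
import Pool.Agent.MP_6b3410_lc.X91.Loc
import Pool.Agent.MP_6b3410_lc.X91.Host
import Pool.Agent.MP_6b3410_lc.X91.Num
import Pool.Agent.MP_6b3410_lc.X91.Neg2
import Pool.Agent.MP_6b3410_lc.N91.Chain
import Pool.Agent.MP_6b3410_lc.X91.Count

namespace Pool.Agent.Results.MP_6b3410_lc.MonotoneTight

open Pool.Agent.MP_6b3410_lc

/-- The explicit host graph on `0, …, n - 1`: the pairs `i < j` such that `j - i` is within
`⌊log₂ n⌋ ^ 4` of a power of two or of `n`. -/
def host (n : ℕ) : Set {p : Fin n × Fin n // p.1 < p.2} :=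
  {e | (∃ k : ℕ, e.1.2.val ≤ e.1.1.val + 2 ^ k + Nat.log 2 n ^ 4 ∧
      e.1.1.val + 2 ^ k ≤ e.1.2.val + Nat.log 2 n ^ 4) ∨
    e.1.1.val + n ≤ e.1.2.val + Nat.log 2 n ^ 4}

/-- For all large `n` the explicit graph `host n` has at most `n ⌊log₂ n⌋ ^ 6` edges, and for
every `τ` it contains a set `H` of at most `3 n` edges such that every circuit of
binary gates (gate `g` applies the Boolean function `G g` to the nodes `a g` and `b g`), monotone
outside a set `T` of at most `τ` gates, that decides Hamiltonicity of the spanning subgraphs of `H`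
has at least `exp (n / (2 ^ τ (log n) ^ C))` gates. -/
theorem result :
    ∃ C n₀ : ℕ, ∀ n : ℕ, n₀ ≤ n → (host n).ncard ≤ n * Nat.log 2 n ^ 6 ∧
      ∀ τ : ℕ, ∃ H : Finset {p : Fin n × Fin n // p.1 < p.2},
      H.card ≤ 3 * n ∧ (∀ e ∈ H, e ∈ host n) ∧
      ∀ (s : ℕ) (G : Fin s → Bool × Bool → Bool)
        (a b : Fin s → ({p : Fin n × Fin n // p.1 < p.2} ⊕ Fin s)) (o : Fin s)
        (T : Finset (Fin s)),
        (∀ g j : Fin s, (a g = Sum.inr j → j < g) ∧ (b g = Sum.inr j → j < g)) →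
        (∀ g : Fin s, g ∉ T → Monotone (G g)) → T.card ≤ τ →
        (∀ x : {p : Fin n × Fin n // p.1 < p.2} → Bool, (∀ e, x e = true → e ∈ H) →
          ∀ val : Fin s → Bool,
          (∀ g : Fin s, val g = G g (Sum.elim x val (a g), Sum.elim x val (b g))) →
          (val o = true ↔
            (SimpleGraph.fromRel
              (fun i j : Fin n => ∃ h : i < j, x ⟨(i, j), h⟩ = true)).IsHamiltonian)) →
        Real.exp (n / (2 ^ τ * Real.log n ^ C)) ≤ (s : ℝ) := by
  obtain ⟨C, n₀, h⟩ := X91.glue5 H91.circ_holds H91.hyper H91.pat H91.par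
    (X91.loc (X91.route X91.col) X91.line)
    (X91.csp (X91.cnf X91.chain91 (X91.rails X91.lay))) X91.host X91.num N91.chain
  exact ⟨C, max n₀ 16, fun n hn =>
    ⟨X91.count n (le_of_max_le_right hn), h n (le_of_max_le_left hn)⟩⟩

end Pool.Agent.Results.MP_6b3410_lc.MonotoneTight
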