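import Mathlib
import Pool.Agent.MP_6b3410_lc.H91.Main
import Pool.Agent.MP_6b3410_lc.H91.Hyper
import Pool.Agent.MP_6b3410_lc.H91.Pat
import Pool.Agent.MP_6b3410_lc.H91.Par
import Pool.Agent.MP_6b3410_lc.T26.Look
import Pool.Agent.MP_6b3410_lc.N91.Chain
import Pool.Agent.MP_6b3410_lc.N91.Net
import Pool.Agent.MP_6b3410_lc.N91.Key
import Pool.Agent.MP_6b3410_lc.N91.NumA
import Pool.Agent.MP_6b3410_lc.N91.NumB
import Pool.Agent.MP_6b3410_lc.N91.Glue

namespace Pool.Agent.Results.MP_6b3410_lc.NegTradeoff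

open Pool.Agent.MP_6b3410_lc

/-- Circuits over the full binary basis (gate `g` applies the binary Boolean function `G g` to the
nodes `a g` and `b g`) that decide Hamiltonicity of graphs on `n` vertices, and in which all gates
outside the set `T` compute monotone functions, have at least
`exp (M / (exp (C √(min |T| (log M))) (log M) ^ C))` gates whenever `M₀ ≤ M ≤ n` and
`M 2 ^ |T| ≤ n ^ 2`. -/
theorem result :
    ∃ C M₀ : ℕ, ∀ n M : ℕ, M₀ ≤ M → M ≤ n →
      ∀ (s : ℕ) (G : Fin s → Bool × Bool → Bool)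
        (a b : Fin s → ({p : Fin n × Fin n // p.1 < p.2} ⊕ Fin s)) (o : Fin s)
        (T : Finset (Fin s)),
        (∀ g j : Fin s, (a g = Sum.inr j → j < g) ∧ (b g = Sum.inr j → j < g)) →
        (∀ x : {p : Fin n × Fin n // p.1 < p.2} → Bool, ∀ val : Fin s → Bool,
          (∀ g : Fin s, val g = G g (Sum.elim x val (a g), Sum.elim x val (b g))) →
          (val o = true ↔
            (SimpleGraph.fromRel
              (fun i j : Fin n => ∃ h : i < j, x ⟨(i, j), h⟩ = true)).IsHamiltonian)) →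
        (∀ g : Fin s, g ∉ T → Monotone (G g)) →
        M * 2 ^ T.card ≤ n ^ 2 →
        Real.exp (M / (Real.exp (C * √(min (T.card : ℝ) (Real.log M))) * Real.log M ^ C)) ≤
          (s : ℝ) :=
  N91.glue H91.circ_holds H91.hyper H91.pat H91.par N91.chain N91.net (N91.key T26.look)
    N91.numA N91.numB

end Pool.Agent.Results.MP_6b3410_lc.NegTradeoff
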