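import Mathlib
import Pool.Agent.MP_6b3410_lc.H75.Tree
import Pool.Agent.MP_6b3410_lc.R5.Main

namespace Pool.Agent.Results.MP_6b3410_lc.ShortRefutations

open Pool.Agent.MP_6b3410_lc.H75

/-- NAND networks of arbitrary fan-in that decide Hamiltonicity on `n` vertices, and in which every
non-Hamiltonian graph has a proof tree for the output false with at most `k n ^ 2` leaves, have at
least `exp (c n ^ 2)` gates. -/
theorem result :
    ∀ k : ℕ, ∃ c : ℝ, 0 < c ∧ ∃ n₀ : ℕ, ∀ n : ℕ, n₀ ≤ n →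
      ∀ (s : ℕ) (I : Fin s → Finset ({p : Fin n × Fin n // p.1 < p.2} ⊕ Fin s)) (o : Fin s),
        (∀ g j : Fin s, Sum.inr j ∈ I g → j < g) →
        (∀ x : {p : Fin n × Fin n // p.1 < p.2} → Bool, ∀ val : Fin s → Bool,
          (∀ g : Fin s, val g = true ↔ ∃ u ∈ I g, Sum.elim x val u = false) →
          (val o = true ↔
            (SimpleGraph.fromRel
              (fun i j : Fin n => ∃ h : i < j, x ⟨(i, j), h⟩ = true)).IsHamiltonian)) →
        (∀ x : {p : Fin n × Fin n // p.1 < p.2} → Bool,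
          ¬ (SimpleGraph.fromRel
            (fun i j : Fin n => ∃ h : i < j, x ⟨(i, j), h⟩ = true)).IsHamiltonian →
          ∃ L, ProofTree I x (Sum.inr o) false L ∧ Multiset.card L ≤ k * n ^ 2) →
        Real.exp (c * (n : ℝ) ^ 2) ≤ (s : ℝ) := by
  intro k
  obtain ⟨c, hc, n₀, h⟩ := Pool.Agent.MP_6b3410_lc.R5.bound k
  refine ⟨c, hc, n₀, fun n hn s I o hac hF hT => ?_⟩
  choose val hval using exists_val_net I hac
  exact h n hn s I o val hval
    (fun x hx hH => Bool.false_ne_true (hx.symm.trans ((hF x _ (hval x)).2 hH))) hT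

end Pool.Agent.Results.MP_6b3410_lc.ShortRefutations
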